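import Pool.Agent.Helper79.GS.St1

/-!
# Project GS (MP_c2d095_lc): module LVL (levels)
-/

set_option autoImplicit false

namespace Pool.Agent.Helper10.GS

open Pool.Agent.Helper79.GS Pool.Agent.Helper19.SK

private lemma ahead_true {P : Type} (A : Arena P) (b : P) : ahead A true b ↔ 0 < A.s b := by
  simp [ahead]

private lemma ahead_false {P : Type} (A : Arena P) (b : P) : ahead A false b ↔ ¬ 0 < A.s b := by
  simp [ahead]

private lemma mg_true {P : Type} (A : Arena P) (b : P) : mg A true b = (-A.s b).toNat := by
  simp [mg]

private lemma mg_false {P : Type} (A : Arena P) (b : P) : mg A false b = (A.s b - 1).toNat := by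
  simp [mg]

private lemma rv_swap {P : Type} (A : Arena P) (u v : P) (h : rv A false u v) : rv A true v u := by
  obtain ⟨h1, h2⟩ := h
  exact ⟨by simpa using h2, by simpa using h1⟩

/-- Levels. -/
theorem hLVL : StLVL := by
  intro P A hSc c u v huv
  have hne : ∀ a b : P, A.s a ≠ A.s b → a ≠ b := fun a b h e => h (by rw [e])
  cases c with
  | true =>
    have hs : A.s v = A.s u + 4 := hSc u v huv
    have hsne : A.s u ≠ A.s v := by omega
    refine ⟨?_, ?_, ?_, hne u v hsne, hsne, ?_, ?_, Or.inl ⟨rfl, hs⟩⟩
    · intro h1 h2
      rw [ahead_true] at h1 h2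
      rw [mg_true, mg_true]
      omega
    · intro h2
      rw [ahead_true] at h2 ⊢
      omega
    · intro c'
      cases c' with
      | true => simp [ahead]
      | false => simp [ahead]
    · intro w hw
      have := hSc w v hw
      omega
    · intro w h1 hw
      rw [ahead_true] at h1 ⊢
      rw [mg_true, mg_true, hw]
      exact ⟨h1, rfl⟩
  | false =>
    have hs0 : A.s u = A.s v + 4 := hSc v u (rv_swap A u v huv)
    have hs : A.s v = A.s u - 4 := by omega
    have hsne : A.s u ≠ A.s v := by omega
    refine ⟨?_, ?_, ?_, hne u v hsne, hsne, ?_, ?_, Or.inr ⟨rfl, hs⟩⟩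
    · intro h1 h2
      rw [ahead_false] at h1 h2
      rw [mg_false, mg_false]
      omega
    · intro h2
      rw [ahead_false] at h2 ⊢
      omega
    · intro c'
      cases c' with
      | true => simp [ahead]
      | false => simp [ahead]
    · intro w hw
      have := hSc v w (rv_swap A w v hw)
      omega
    · intro w h1 hw
      rw [ahead_false] at h1 ⊢
      rw [mg_false, mg_false, hw]
      exact ⟨h1, rfl⟩

end Pool.Agent.Helper10.GS
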